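import Pool.Agent.Run7.h469.Tm
import Pool.Agent.Results.MP_484fb8_nt.AsymptoticEveryModulus

/-!
# Goldbach representations within primorial intervals: ALL good rational approximations of almost every real number

Let `d ≥ 1`. For almost every `α` in `ℝ^d` the following holds for ALL integer vectors `(p_1, …, p_d, q)`, `q ≥ 1`, with
`|α_i - p_i / q| ≤ (log q)^W / q^(1 + 1/d)` for all `i`, with finitely many exceptions: ALL the even integers `n > 0`
at a distance of at most `(log q)^W` from one of the integers `u_1 p_1 + … + u_d p_d + v q`, `(u, v) ≠ (0, 0)`,
`|u_i|, |v| ≤ (log q)^W`, satisfy the assertion of the problem, and the number of the representations required there,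
also in windows, is the one predicted by Hardy and Littlewood, up to the factor `1 ± ε`.
For `d = 1` this applies to the numerators and the denominators of all the convergents (and of all the intermediate
fractions) of the continued fraction of almost every real number, to the integers near their sums, differences, double
values, and so on. The vectors are sparse: for almost every `α` there are only `(log Q)^(O(1))` of them with `q ≤ Q`.

Definitions used: from `Run7/h469/Tm`: `GoodApproximation d W α p q` (`q ≥ 1` and `|α_i - p_i / q| ≤ (log q)^W / q^(1 + 1/d)`
for all `i`), `Near W p q n` (`n = u_1 p_1 + … + u_d p_d + v q + w > 0` with `(u, v) ≠ (0, 0)` and `|u_i|, |v|, |w| ≤ (log q)^W`);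
from the starting files `AsymptoticEveryModulus.Holds ε W m`: if `#(n) < m ≤ #(n + 1) + 1`, then `m = p + q` with primes in
the intervals required in the problem, the number of these representations is `sing m #(n) / (log m)²` up to the factor
`1 ± ε`, and the same is true in all windows of length at least `#(n) / (log m)^W`.

Proof. For fixed small `u`, `v`, `w` the number of the integer vectors `(p, q)` of size `2^j` for which `u p + v q + w` is
one of the few exceptions of the problem (in the starting files: at most `x / (log x)^A` up to `x`) is at most
`2^(j (d + 1)) / j^A`; so the union of the corresponding boxes has the measure `O(j^(-2))`, and the lemma of Borel and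
Cantelli can be applied.
-/

set_option autoImplicit false

namespace Pool.Agent.Results.MP_484fb8_nt.AllGoodApproximations

open Finset MeasureTheory
open Run7.h469.CT (Few)
open Run7.h469.Tm

theorem few_asymptotic (ε : ℝ) (hε : 0 < ε) (W : ℕ) : Few (2 / 3) (fun n => Even n → AsymptoticEveryModulus.Holds ε W n) :=
  few_even _ _ (fun ρ hρ A T => AsymptoticEveryModulus.result ε ρ hε hρ W A T)

/-- **Goldbach representations within primorial intervals: all good approximations of almost every real tuple.** For almost all `α` in `ℝ^d`, for all `W` and `W'`, there
are only finitely many pairs `(p, q)` such that `p / q` is a good approximation of `α` and some even integer `n` near a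
small linear combination of the `p_i` and `q` does not satisfy `AsymptoticEveryModulus.Holds ε W' n`. -/
theorem result (d : ℕ) (hd : 1 ≤ d) (ε : ℝ) (hε : 0 < ε) : ∀ᵐ α : Fin d → ℝ, ∀ W W' : ℕ,
    {z : (Fin d → ℤ) × ℕ | GoodApproximation d W α z.1 z.2 ∧ ∃ n : ℕ, Near W z.1 z.2 n ∧ Even n ∧
      ¬ AsymptoticEveryModulus.Holds ε W' n}.Finite := by
  rw [ae_all_iff]
  intro W
  rw [ae_all_iff]
  intro W'
  filter_upwards [approximations _ (thin_of_few (by norm_num) (few_asymptotic ε hε W')) d W hd] with α hα
  refine hα.subset ?_
  rintro z ⟨h1, n, h2, h3, h4⟩
  exact ⟨h1, n, h2, fun h => h4 (h h3)⟩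

end Pool.Agent.Results.MP_484fb8_nt.AllGoodApproximations
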