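import Pool.Agent.Run7.h710.TR.Cnt
import Pool.Agent.W93.PG7

/-!
# Goldbach representations in primorial intervals: all the multiples of all the integers near those written by a transducer

The integers `v < a ^ k` are arbitrary, up to few exceptions; the transducer `T` reads the digits of `v` in base `a` and
writes the digits of `T(v)` in base `b` (definitions in `Pool.Agent.Run7.h710.TR.Defs`).

Method: if two words of `L` digits lead from the same state to the same state and different words are written, then the two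
parts of the exponential sum over the integers `T(v)` which belong to these words cancel in part at the places where the
frequency has a digit which is not extremal. From the starting files: the circle method for the representations in
windows (`Pool.Agent.Y885`, `Pool.Agent.W93.PG`), in a generic form: `Pool.Agent.N625.PT.t_windows`.

Definitions used (in `Pool.Agent.H560R3.GB`): `C₂`: the twin prime constant `∏_{p > 2} (1 - 1 / (p - 1) ^ 2)`; `sing m`:
the singular series `2 C₂ ∏_{p ∣ m, p > 2} (p - 1) / (p - 2)`.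

Examples: the bitwise conjunction or disjunction of `v` and `m v` (the carries are the states); the integer whose digit `i`
is `f(x_i, x_{i+1}, …, x_{i+r})`, where `x_i` are the digits of `v` and `f` is not constant (one-sided cellular automata).
-/

set_option autoImplicit false

namespace Pool.Agent.Results.MP_484fb8_nt.TransducerMultiples

open Finset Pool.Agent.H560R3.GB Pool.Agent.Run7.h710.TR

/-- `#(n)`: the product of the first `n` primes. -/
noncomputable def P (n : ℕ) : ℕ := ∏ i ∈ range n, Nat.nth Nat.Prime i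

/-- The number of primes `p` in the `n`-th primorial interval such that `m - p` is a prime which lies in the
`n`-th or in the `n + 1`-st primorial interval. -/
noncomputable def R (n m : ℕ) : ℕ :=
  ((Icc (P (n - 1) + 1) (P n + 1)).filter
    (fun p => p.Prime ∧ (m - p).Prime ∧ P (n - 1) + 1 ≤ m - p ∧ m - p ≤ P (n + 1) + 1)).card

/-- If `m` belongs to the `n + 1`-st primorial interval (`n ≥ 1`), then `m = p + q` where `p` is a prime in the
`n`-th primorial interval and `q` is a prime in the `n`-th or in the `n + 1`-st one; moreover, up to a relative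
error of at most `ε`, the number of these representations is `sing m * #(n) / log ^ 2 m`. -/
def Holds (ε : ℝ) (m : ℕ) : Prop :=
  ∀ n : ℕ, 1 ≤ n → P n + 1 ≤ m → m ≤ P (n + 1) + 1 →
    (∃ p q : ℕ, p.Prime ∧ q.Prime ∧ m = p + q ∧ P (n - 1) + 1 ≤ p ∧ p ≤ P n + 1 ∧ P (n - 1) + 1 ≤ q ∧ q ≤ P (n + 1) + 1) ∧
    |(R n m : ℝ) - sing m * P n / Real.log m ^ 2| ≤ ε * (sing m * P n / Real.log m ^ 2)

lemma holds_of (ε : ℝ) (hε : 0 < ε) : ∃ m₀ : ℕ, ∀ m : ℕ, m₀ ≤ m → 2 ∣ m →
    Pool.Agent.W93.PG.WinP (min ε (1 / 2) / 4) 2 m → Holds ε m := by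
  obtain ⟨m₀, h0⟩ := Pool.Agent.W93.PG.reps_of_win (min ε (1 / 2)) (lt_min hε (by norm_num))
    ((min_le_right _ _).trans (by norm_num))
  refine ⟨m₀ + 3, ?_⟩
  intro m hm _ hwin n hn h2 h3
  have h4 := h0 m (by omega) hwin n hn h2 h3
  have hm0 : (3 : ℝ) ≤ m := by exact_mod_cast (by omega : 3 ≤ m)
  have hlog : 0 < Real.log m := Real.log_pos (by linarith)
  have hs := Pool.Agent.W93.GB.one_le_sing m
  have hP : (0 : ℝ) < P n := by exact_mod_cast Pool.Agent.W93.PG.PR_pos n
  have hmain : 0 < sing m * P n / Real.log m ^ 2 := by positivity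
  have hR : R n m = Pool.Agent.W93.PG.reps n m := rfl
  have hPR : Pool.Agent.W93.PG.PR n = P n := rfl
  rw [← hR, hPR] at h4
  have h5 : |(R n m : ℝ) - sing m * P n / Real.log m ^ 2| ≤ ε * (sing m * P n / Real.log m ^ 2) :=
    h4.trans (mul_le_mul_of_nonneg_right (min_le_left _ _) hmain.le)
  have h6 : |(R n m : ℝ) - sing m * P n / Real.log m ^ 2| ≤ 1 / 2 * (sing m * P n / Real.log m ^ 2) :=
    h4.trans (mul_le_mul_of_nonneg_right (min_le_right _ _) hmain.le)
  refine ⟨?_, h5⟩
  have h7 : (0 : ℝ) < R n m := by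
    rw [abs_le] at h6
    linarith [h6.1]
  have h8 : 0 < R n m := by exact_mod_cast h7
  unfold R at h8
  rw [card_pos] at h8
  obtain ⟨p, hp⟩ := h8
  rw [mem_filter, mem_Icc] at hp
  obtain ⟨⟨p1, p2⟩, p3, p4, p5, p6⟩ := hp
  exact ⟨p, m - p, p3, p4, by have := p4.pos; omega, p1, p2, p5, p6⟩

open Classical in
/-- Let `a`, `b ≥ 2`, `L ≥ 1`, `κ ≠ 0`, `B`, `J`, `W`, `U` and `ε > 0` be fixed and let `k` be large. Let an arbitrary transducer be given which reads digits `< a` and writes digits `< b` (with finitely or infinitely many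
states) such that from every state two words of `L` digits lead to the same state, while different words are written; let it
begin in an arbitrary state `s` and read from the left or from the right,
and let `c` be an arbitrary integer with `|c| ≤ B b ^ k` (`k` must be large in terms of the fixed numbers only). Then all the
`v < a ^ k`, with at most `a ^ k / k ^ U` exceptions, have the following property, where `v'` is the integer which is written
when `v` is read: for ALL the integers `q ≥ 1` at a distance of at most `k ^ W` from `c + κ v'` and ALL the factors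
`1 ≤ h ≤ k ^ J` for which `m = h q` is even, the assertion of the
problem holds for `m`, and the number of the representations required there is as predicted, up to a relative error of at
most `ε`. -/
theorem result (a b L : ℕ) (hb : 2 ≤ b) (hL : 1 ≤ L) (κ : ℤ) (hκ : κ ≠ 0) (B J W  U : ℕ) (ε : ℝ) (hε : 0 < ε) :
    ∃ k₀ : ℕ, ∀ k : ℕ, k₀ ≤ k → ∀ (S : Type) (δ : S → ℕ → S) (o : S → ℕ → ℕ), Transducer a b L δ o →
      ∀ (left : Bool) (s : S) (c : ℤ), |c| ≤ B * (b : ℤ) ^ k →
      (((range (a ^ k)).filter fun v => ¬ ∀ q : ℕ, 1 ≤ q → |(q : ℤ) - (c + κ * (image a b δ o left k s v : ℕ))| ≤ (k : ℤ) ^ W →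
        ∀ h : ℕ, 1 ≤ h → h ≤ k ^ J → Even (h * q) → Holds ε (h * q)).card : ℝ) ≤ (a : ℝ) ^ k / (k : ℝ) ^ U := by
  obtain ⟨m₀, hm⟩ := holds_of ε hε
  have hm' : ∀ m : ℕ, m₀ ≤ m → 2 ∣ m → Pool.Agent.W93.PG.WinP (min ε (1 / 2) / 4) 2 m → (fun m => Holds ε m) m := hm
  obtain ⟨k₀, hmain⟩ := Pool.Agent.N625.PT.t_windows (tr_tcls a b L hb hL κ hκ) B J W 2 U m₀
    (min ε (1 / 2) / 4) (div_pos (lt_min hε (by norm_num)) (by norm_num))
    (fun m => Holds ε m) hm'
  refine ⟨k₀, fun k hk S δ o hT left s c hc => ?_⟩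
  refine exceptions hb hT left k s (fun v => ∀ q : ℕ, 1 ≤ q → |(q : ℤ) - (c + κ * (v : ℕ))| ≤ (k : ℤ) ^ W →
    ∀ h : ℕ, 1 ≤ h → h ≤ k ^ J → Even (h * q) → Holds ε (h * q)) U ?_
  refine hmain k hk _ ⟨S, δ, o, left, s, hT, rfl⟩ c hc (fun v => ∀ q : ℕ, 1 ≤ q → |(q : ℤ) - (c + κ * (v : ℕ))| ≤ (k : ℤ) ^ W →
    ∀ h : ℕ, 1 ≤ h → h ≤ k ^ J → Even (h * q) → Holds ε (h * q)) ?_
  intro v hv
  push Not at hv
  obtain ⟨q, hq1, hq2, h, hh1, hh2, hev, hbad⟩ := hv
  refine ⟨h, hh1, hh2, (q : ℤ) - (c + κ * v), hq2, ?_⟩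
  have e : (h : ℤ) * (c + ((q : ℤ) - (c + κ * v)) + κ * v) = ((h * q : ℕ) : ℤ) := by
    push_cast
    ring
  rw [e]
  refine ⟨by exact_mod_cast Nat.mul_pos hh1 hq1, by exact_mod_cast hev.two_dvd, ?_⟩
  rw [Int.toNat_natCast]
  exact hbad

end Pool.Agent.Results.MP_484fb8_nt.TransducerMultiples
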